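import Pool.Agent.HC.Dense

set_option autoImplicit false
open Set Filter Topology Polynomial

namespace Pool.Agent.HC

abbrev Ca : Type := ℕ → Bool

def pre (m : ℕ) (t : Ca) : Fin m → Bool := fun i => t i

def ext (m : ℕ) (s : Fin m → Bool) : Ca := fun i => if h : i < m then s ⟨i, h⟩ else false

theorem pre_ext (m : ℕ) (s : Fin m → Bool) : pre m (ext m s) = s := by
  funext i
  simp [pre, ext]

theorem continuous_pre (m : ℕ) : Continuous (pre m) :=
  continuous_pi fun i => continuous_apply (i : ℕ)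

theorem pre_mono {m M : ℕ} (h : m ≤ M) {t t' : Ca} (ht : pre M t = pre M t') :
    pre m t = pre m t' := by
  funext i
  exact congrFun ht ⟨i, lt_of_lt_of_le i.2 h⟩

theorem exists_prefix {X : Type} [UniformSpace X] (f : C(Ca, X)) (V : Set (X × X))
    (hV : V ∈ uniformity X) : ∃ M : ℕ, ∀ t t' : Ca, pre M t = pre M t' → (f t, f t') ∈ V := by
  have huc : UniformContinuous f := CompactSpace.uniformContinuous_of_continuous f.continuous
  have h1 := huc hV
  rw [Filter.mem_map, Pi.uniformity] at h1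
  have h2 : (⨅ i : ℕ, comap (fun a : Ca × Ca => (a.1 i, a.2 i)) (uniformity Bool))
      = ⨅ i : ℕ, 𝓟 {a : Ca × Ca | a.1 i = a.2 i} := by
    congr 1
    funext i
    rw [DiscreteUniformity.eq_principal_setRelId, comap_principal]
    rfl
  rw [h2, (hasBasis_iInf_principal_finite _).mem_iff] at h1
  obtain ⟨F, hF, hsub⟩ := h1
  obtain ⟨M, hM⟩ := hF.bddAbove
  refine ⟨M + 1, fun t t' h => ?_⟩
  have : (t, t') ∈ ⋂ i ∈ F, {a : Ca × Ca | a.1 i = a.2 i} := by
    simp only [mem_iInter, mem_ofPred_eq]
    intro i hi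
    exact congrFun h ⟨i, Nat.lt_succ_of_le (hM hi)⟩
  exact hsub this

section

variable {K : Type} [RCLike K] {X : Type} [AddCommGroup X] [Module K X]
    [UniformSpace X] [IsUniformAddGroup X] [ContinuousSMul K X]

/-- condition at level `m` -/
def O (T : X →L[K] X) (m : ℕ) (U : Set X) : Set C(Ca, X) :=
  {f | ∀ p : ((Fin m → Bool) → Ca) × ((Fin m → Bool) → K),
      p ∈ {t : (Fin m → Bool) → Ca | ∀ s, pre m (t s) = s} ×ˢ Metric.sphere (0 : (Fin m → Bool) → K) 1 →
      ∃ k : ℕ, (T^k) (∑ s, p.2 s • f (p.1 s)) ∈ U}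

theorem isOpen_O (T : X →L[K] X) (m : ℕ) (U : Set X) (hU : IsOpen U) : IsOpen (O T m U) := by
  rw [isOpen_iff_eventually]
  intro f hf
  have hc : IsCompact ({t : (Fin m → Bool) → Ca | ∀ s, pre m (t s) = s} ×ˢ
      Metric.sphere (0 : (Fin m → Bool) → K) 1) := by
    refine IsCompact.prod ?_ (isCompact_sphere _ _)
    apply IsClosed.isCompact
    have : {t : (Fin m → Bool) → Ca | ∀ s, pre m (t s) = s} = ⋂ s, {t | pre m (t s) = s} := by
      ext t; simp
    rw [this]
    exact isClosed_iInter fun s =>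
      isClosed_eq ((continuous_pre m).comp (continuous_apply s)) continuous_const
  refine hc.eventually_forall_of_forall_eventually ?_
  intro p hp
  obtain ⟨k, hk⟩ := hf p hp
  have hcont : Continuous (fun z : C(Ca, X) × (((Fin m → Bool) → Ca) × ((Fin m → Bool) → K)) =>
      (T^k) (∑ s, z.2.2 s • z.1 (z.2.1 s))) := by
    refine (T^k).continuous.comp ?_
    refine continuous_finsetSum _ fun s _ => ?_
    refine Continuous.smul ?_ ?_
    · exact (continuous_apply s).comp (continuous_snd.comp continuous_snd)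
    · exact continuous_fst.eval ((continuous_apply s).comp (continuous_fst.comp continuous_snd))
  have := hcont.continuousAt.preimage_mem_nhds (x := (f, p)) (hU.mem_nhds hk)
  filter_upwards [this] with z hz
  exact ⟨k, hz⟩

theorem dense_of_unif {Z : Set C(Ca, X)}
    (h : ∀ (f : C(Ca, X)) (V : Set (X × X)), V ∈ uniformity X → ∃ g ∈ Z, ∀ t, (f t, g t) ∈ V) :
    Dense Z := by
  intro f
  rw [mem_closure_iff_nhds_basis'
    (nhds_basis_uniformity' (ContinuousMap.hasBasis_compactConvergenceUniformity_of_compact))]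
  intro V hV
  obtain ⟨g, hg, hgV⟩ := h f V hV
  exact ⟨g, hgV, hg⟩

theorem frequently_orbit [T2Space X] [Nontrivial X] (T : X →L[K] X) (x : X)
    (hx : Dense (Set.range fun n : ℕ => (T^n) x)) (W : Set X) (hW : IsOpen W) (hne : W.Nonempty) :
    ∃ᶠ n in atTop, (T^n) x ∈ W := by
  rw [frequently_atTop]
  intro N
  have hpn : ∀ y : X, NeBot (𝓝[≠] y) := fun y => Module.punctured_nhds_neBot K X y
  have hd := hx.sdiff_finite (t := (fun n : ℕ => (T^n) x) '' (Set.Iio N))
    ((Set.finite_Iio N).image _)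
  obtain ⟨y, hyW, ⟨n, rfl⟩, hn⟩ := hd.inter_open_nonempty W hW hne
  refine ⟨n, ?_, hyW⟩
  by_contra hlt
  exact hn ⟨n, not_le.mp hlt, rfl⟩

theorem dense_O [T2Space X] [Nontrivial X] (T : X →L[K] X) (x : X)
    (hx : Dense (Set.range fun n : ℕ => (T^n) x)) (m : ℕ) (U : Set X) (hU : IsOpen U)
    (hne : U.Nonempty) : Dense (O T m U) := by
  classical
  apply dense_of_unif
  intro f V hV
  obtain ⟨V', hV', hVV⟩ := comp_mem_uniformity_sets hV
  obtain ⟨M₀, hM₀⟩ := exists_prefix f V' hV'
  set M := max M₀ m with hM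
  -- choose exponents
  let e := Fintype.equivFin (Fin M → Bool)
  let tgt : ℕ → X := fun j => if h : j < Fintype.card (Fin M → Bool) then
    f (ext M (e.symm ⟨j, h⟩)) else 0
  have hfreq : ∀ j : ℕ, ∃ᶠ n in atTop, (T^n) x ∈ {y | (tgt j, y) ∈ V'} := by
    intro j
    have hnb : {y | (tgt j, y) ∈ V'} ∈ 𝓝 (tgt j) := UniformSpace.ball_mem_nhds _ hV'
    have := frequently_orbit T x hx (interior {y | (tgt j, y) ∈ V'}) isOpen_interior
      ⟨tgt j, mem_interior_iff_mem_nhds.mpr hnb⟩
    exact this.mono fun n hn => interior_subset hn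
  obtain ⟨φ, hφ, hφV⟩ := extraction_forall_of_frequently hfreq
  let n : (Fin M → Bool) → ℕ := fun s => φ (e s)
  have hninj : Function.Injective n := by
    intro s s' h
    have := hφ.injective h
    exact e.injective (Fin.ext this)
  have hnV : ∀ s : Fin M → Bool, (f (ext M s), (T^(n s)) x) ∈ V' := by
    intro s
    have h1 := hφV (e s)
    have h2 : tgt (e s) = f (ext M s) := by
      have h3 : ((e s : Fin _) : ℕ) < Fintype.card (Fin M → Bool) := (e s).2
      simp only [tgt]
      rw [dif_pos h3]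
      simp
    rw [← h2]
    exact h1
  let g : C(Ca, X) := ⟨fun t => (T^(n (pre M t))) x,
    (continuous_of_discreteTopology (f := fun s : Fin M → Bool => (T^(n s)) x)).comp
      (continuous_pre M)⟩
  refine ⟨g, ?_, ?_⟩
  · rintro ⟨t, c⟩ ⟨ht, hc⟩
    have ht : ∀ s, pre m (t s) = s := ht
    have hc : ‖c‖ = 1 := by simpa using hc
    let p : K[X] := ∑ s, Polynomial.monomial (n (pre M (t s))) (c s)
    have hp : p ≠ 0 := by
      have hc0 : c ≠ 0 := by
        intro h; rw [h, norm_zero] at hc; exact zero_ne_one hc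
      obtain ⟨s₀, hs₀⟩ := Function.ne_iff.mp hc0
      intro h0
      have h1 := congrArg (fun q : K[X] => q.coeff (n (pre M (t s₀)))) h0
      simp only [p, Polynomial.finsetSum_coeff, Polynomial.coeff_monomial,
        Polynomial.coeff_zero] at h1
      rw [Finset.sum_eq_single s₀] at h1
      · rw [if_pos rfl] at h1; exact hs₀ h1
      · intro s _ hs
        rw [if_neg]
        intro h
        apply hs
        have h2 := pre_mono (le_max_right M₀ m) (hninj h)
        rw [ht, ht] at h2
        exact h2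
      · intro h; exact absurd (Finset.mem_univ _) h
    have hev : aeval T p x = ∑ s, c s • g (t s) := by
      simp only [p, map_sum, aeval_monomial]
      rw [_root_.sum_apply]
      refine Finset.sum_congr rfl fun s _ => ?_
      rw [← Algebra.smul_def]
      rfl
    have := hc_aeval T x hx p hp
    rw [hev] at this
    obtain ⟨y, hyU, ⟨k, rfl⟩⟩ := this.inter_open_nonempty U hU hne
    exact ⟨k, hyU⟩
  · intro t
    apply hVV
    refine ⟨f (ext M (pre M t)), ?_, hnV (pre M t)⟩
    apply hM₀
    apply pre_mono (le_max_left M₀ m)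
    rw [pre_ext]

def E (K : Type) [RCLike K] {X : Type} [AddCommGroup X] [Module K X]
    [UniformSpace X] (U : Set X) : Set C(Ca, X) :=
  {f | ∃ (a : K) (t t' : Ca), a • (f t - f t') ∈ U}

theorem isOpen_E (U : Set X) (hU : IsOpen U) : IsOpen (E K U) := by
  have : E K U = ⋃ (a : K) (t : Ca) (t' : Ca), {f : C(Ca, X) | a • (f t - f t') ∈ U} := by
    ext f; simp [E]
  rw [this]
  refine isOpen_iUnion fun a => isOpen_iUnion fun t => isOpen_iUnion fun t' => ?_
  refine hU.preimage ?_
  exact ((continuous_eval_const t).sub (continuous_eval_const t')).const_smul a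

theorem dense_E (U : Set X) (hU : IsOpen U) (hne : U.Nonempty) : Dense (E K U) := by
  classical
  apply dense_of_unif
  intro f V hV
  obtain ⟨u, hu⟩ := hne
  rw [uniformity_eq_comap_nhds_zero] at hV
  obtain ⟨N, hN, hNV⟩ := hV
  obtain ⟨δ, hδ0, hδN⟩ : ∃ δ : K, δ ≠ 0 ∧ δ • u ∈ N := by
    have h1 : Tendsto (fun δ : K => δ • u) (𝓝 0) (𝓝 0) := by
      have : Continuous (fun δ : K => δ • u) := continuous_id.smul continuous_const
      simpa using this.tendsto 0
    have h2 : ∀ᶠ δ in 𝓝[≠] (0:K), δ • u ∈ N := (h1.mono_left nhdsWithin_le_nhds) hN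
    have h3 : ∀ᶠ δ in 𝓝[≠] (0:K), δ ≠ 0 := self_mem_nhdsWithin
    obtain ⟨δ, hδ⟩ := (h3.and h2).exists
    exact ⟨δ, hδ⟩
  let z : Ca := fun _ => false
  let tt : ℕ → Ca := fun j i => decide (i = j)
  have htt : Tendsto tt atTop (𝓝 z) := by
    rw [tendsto_pi_nhds]
    intro i
    apply tendsto_const_nhds.congr'
    filter_upwards [eventually_gt_atTop i] with j hj
    simp [tt, z, hj.ne]
  have hlim : Tendsto (fun j => δ⁻¹ • (f (tt j) - f z) + u) atTop (𝓝 u) := by
    have h1 : Tendsto (fun j => f (tt j)) atTop (𝓝 (f z)) := (f.continuous.tendsto z).comp htt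
    have h2 := ((h1.sub_const (f z)).const_smul δ⁻¹).add_const u
    simpa using h2
  obtain ⟨j, hj⟩ := (hlim.eventually (hU.mem_nhds hu)).exists
  let g : C(Ca, X) := ⟨fun t => f t + (if t j = true then δ • u else 0), by
    refine f.continuous.add ?_
    exact (continuous_of_discreteTopology (f := fun b : Bool => if b = true then δ • u else 0)).comp
      (continuous_apply j)⟩
  refine ⟨g, ⟨δ⁻¹, tt j, z, ?_⟩, ?_⟩
  · have h1 : g (tt j) = f (tt j) + δ • u := by simp [g, tt]
    have h2 : g z = f z := by simp [g, z]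
    rw [h1, h2]
    have h3 : δ⁻¹ • (f (tt j) + δ • u - f z) = δ⁻¹ • (f (tt j) - f z) + u := by
      rw [add_sub_right_comm, smul_add, smul_smul, inv_mul_cancel₀ hδ0, one_smul]
    rw [h3]; exact hj
  · intro t
    apply hNV
    change g t - f t ∈ N
    have : g t - f t = if t j = true then δ • u else 0 := by simp [g]
    rw [this]
    split_ifs
    · exact hδN
    · exact mem_of_mem_nhds hN

end

end Pool.Agent.HC
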