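import Pool.Agent.HC.Poly

set_option autoImplicit false
open Set Filter Topology Polynomial

namespace Pool.Agent.HC

theorem denseRange_aeval {K : Type} [RCLike K] {X : Type} [AddCommGroup X] [Module K X]
    [TopologicalSpace X] [IsTopologicalAddGroup X] [ContinuousSMul K X]
    (T : X →L[K] X) (x : X)
    (hx : Dense (Set.range fun n : ℕ => (T^n) x)) (p : K[X]) (hp : p ≠ 0) :
    DenseRange (aeval T p) := by
  classical
  by_contra hnd
  set P := aeval T p with hP
  let Y : Submodule K X := (LinearMap.range (P : X →ₗ[K] X)).topologicalClosure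
  have hYcl : IsClosed (Y : Set X) := Submodule.isClosed_topologicalClosure _
  have hYcoe : (Y : Set X) = closure (Set.range P) := by
    rw [Submodule.topologicalClosure_coe]; rfl
  have hY : Y ≠ ⊤ := by
    intro h
    apply hnd
    intro y
    rw [← hYcoe, h]; trivial
  have hTY : Y ≤ Y.comap (T : X →ₗ[K] X) := by
    intro y hy
    change y ∈ (Y : Set X) at hy
    rw [hYcoe] at hy
    change T y ∈ (Y : Set X)
    rw [hYcoe]
    have h1 : MapsTo T (Set.range P) (Set.range P) := by
      rintro _ ⟨z, rfl⟩
      refine ⟨T z, ?_⟩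
      have hc : P * T = T * P := by
        have h := Polynomial.aeval_X (R := K) T
        have : aeval T (p * Polynomial.X) = aeval T (Polynomial.X * p) := by rw [mul_comm]
        rw [map_mul, map_mul, h] at this
        exact this
      have := congrArg (fun f : X →L[K] X => f z) hc
      exact this
    exact h1.closure T.continuous hy
  let S : (X ⧸ Y) →ₗ[K] (X ⧸ Y) := Y.mapQ Y (T : X →ₗ[K] X) hTY
  have hS1 : ∀ y : X, S (Y.mkQ y) = Y.mkQ (T y) := fun y => by simp [S]
  have hSn : ∀ (n : ℕ) (y : X), (S^n) (Y.mkQ y) = Y.mkQ ((T^n) y) := by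
    intro n
    induction n with
    | zero => intro y; simp
    | succ n ih =>
      intro y
      rw [pow_succ, pow_succ]
      change (S^n) (S (Y.mkQ y)) = Y.mkQ ((T^n) (T y))
      rw [hS1, ih]
  have haev : ∀ (q : K[X]) (y : X), (aeval S q) (Y.mkQ y) = Y.mkQ ((aeval T q) y) := by
    intro q y
    induction q using Polynomial.induction_on' with
    | add a b ha hb =>
      rw [map_add, map_add, LinearMap.add_apply, ha, hb, _root_.add_apply, map_add]
    | monomial n a =>
      rw [aeval_monomial, aeval_monomial, ← Algebra.smul_def, ← Algebra.smul_def,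
        LinearMap.smul_apply, hSn, _root_.smul_apply, map_smul]
  have hzero : aeval S p = 0 := by
    apply LinearMap.ext
    intro q
    obtain ⟨y, rfl⟩ := Y.mkQ_surjective q
    rw [haev, LinearMap.zero_apply]
    change Y.mkQ (P y) = 0
    rw [← LinearMap.mem_ker, Submodule.ker_mkQ]
    change P y ∈ (Y : Set X)
    rw [hYcoe]
    exact subset_closure ⟨y, rfl⟩
  have hnt : Nontrivial (X ⧸ Y) := Submodule.Quotient.nontrivial_iff.mpr hY
  have : IsClosed (Y : Set X) := hYcl
  have hmk : Continuous (Y.mkQ) := continuous_quot_mk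
  have hdense : Dense (Set.range fun n : ℕ => (S^n) (Y.mkQ x)) := by
    have h1 : DenseRange Y.mkQ := Y.mkQ_surjective.denseRange
    have h2 := h1.dense_image hmk hx
    rw [← Set.range_comp] at h2
    have h3 : (fun n : ℕ => (S^n) (Y.mkQ x)) = (Y.mkQ) ∘ (fun n : ℕ => (T^n) x) := by
      funext n; exact hSn n x
    rw [h3]; exact h2
  have hT2 : T2Space (X ⧸ Y) := inferInstance
  exact not_algebraic S (Y.mkQ x) hdense p hp hzero

/-- nonzero polynomials in `T` map hypercyclic vectors to hypercyclic vectors -/
theorem hc_aeval {K : Type} [RCLike K] {X : Type} [AddCommGroup X] [Module K X]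
    [TopologicalSpace X] [IsTopologicalAddGroup X] [ContinuousSMul K X]
    (T : X →L[K] X) (x : X)
    (hx : Dense (Set.range fun n : ℕ => (T^n) x)) (p : K[X]) (hp : p ≠ 0) :
    Dense (Set.range fun n : ℕ => (T^n) (aeval T p x)) := by
  have h1 := denseRange_aeval T x hx p hp
  have h2 := h1.dense_image (aeval T p).continuous hx
  rw [← Set.range_comp] at h2
  have h3 : (fun n : ℕ => (T^n) (aeval T p x)) = (aeval T p) ∘ (fun n : ℕ => (T^n) x) := by
    funext n
    have hc : T^n * aeval T p = aeval T p * T^n := by
      have h : aeval T ((Polynomial.X : K[X])^n) = T^n := by simp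
      have : aeval T ((Polynomial.X : K[X])^n * p) = aeval T (p * (Polynomial.X : K[X])^n) := by rw [mul_comm]
      rw [map_mul, map_mul, h] at this
      exact this
    exact congrArg (fun f : X →L[K] X => f x) hc
  rw [h3]; exact h2

end Pool.Agent.HC
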