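import Pool.Agent.HC.Cantor

set_option autoImplicit false
open Set Filter Topology Polynomial TopologicalSpace

namespace Pool.Agent.HC

theorem exists_level (F : Finset Ca) : ∃ m : ℕ, Set.InjOn (pre m) (F : Set Ca) := by
  classical
  have h : ∀ t t' : Ca, ∃ i : ℕ, t ≠ t' → t i ≠ t' i := by
    intro t t'
    by_cases h : t = t'
    · exact ⟨0, fun h' => absurd h h'⟩
    · obtain ⟨i, hi⟩ := Function.ne_iff.mp h
      exact ⟨i, fun _ => hi⟩
  choose idx hidx using h
  refine ⟨(F ×ˢ F).sup (fun p => idx p.1 p.2 + 1), ?_⟩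
  intro t ht t' ht' h
  by_contra hne
  have hle : idx t t' + 1 ≤ (F ×ˢ F).sup (fun p => idx p.1 p.2 + 1) :=
    Finset.le_sup (f := fun p : Ca × Ca => idx p.1 p.2 + 1)
      (Finset.mem_product.mpr ⟨ht, ht'⟩ : (t, t') ∈ F ×ˢ F)
  exact hidx t t' hne (congrFun h ⟨idx t t', hle⟩)

section

variable {K : Type} [RCLike K] {X : Type} [AddCommGroup X] [Module K X]
    [UniformSpace X] [IsUniformAddGroup X] [ContinuousSMul K X]

theorem hc_combo [SecondCountableTopology X] (T : X →L[K] X) (f : C(Ca, X))
    (hf : ∀ (m : ℕ), ∀ U ∈ countableBasis X, f ∈ O T m U) (l : Ca →₀ K) (hl : l ≠ 0) :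
    Dense (Set.range fun n : ℕ => (T^n) (l.sum fun t a => a • f t)) := by
  classical
  obtain ⟨m, hm⟩ := exists_level l.support
  let P : (Fin m → Bool) → Prop := fun s => ∃ t ∈ l.support, pre m t = s
  let tt : (Fin m → Bool) → Ca := fun s => if h : P s then h.choose else ext m s
  let c : (Fin m → Bool) → K := fun s => if h : P s then l h.choose else 0
  have hch : ∀ t ∈ l.support, ∀ h : P (pre m t), h.choose = t := by
    intro t ht h
    exact hm h.choose_spec.1 ht h.choose_spec.2
  have hc : ∀ t ∈ l.support, c (pre m t) = l t := by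
    intro t ht
    have h : P (pre m t) := ⟨t, ht, rfl⟩
    simp only [c]
    rw [dif_pos h, hch t ht h]
  have htt : ∀ t ∈ l.support, tt (pre m t) = t := by
    intro t ht
    have h : P (pre m t) := ⟨t, ht, rfl⟩
    simp only [tt]
    rw [dif_pos h, hch t ht h]
  have hpre : ∀ s, pre m (tt s) = s := by
    intro s
    simp only [tt]
    split_ifs with h
    · exact h.choose_spec.2
    · exact pre_ext m s
  have hsum : ∑ s, c s • f (tt s) = l.sum fun t a => a • f t := by
    rw [Finsupp.sum]
    have h1 : ∑ s ∈ l.support.image (pre m), c s • f (tt s) = ∑ s, c s • f (tt s) := by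
      apply Finset.sum_subset (Finset.subset_univ _)
      intro s _ hs
      have : ¬ P s := by
        rintro ⟨t, ht, rfl⟩
        exact hs (Finset.mem_image_of_mem _ ht)
      simp only [c]
      rw [dif_neg this, zero_smul]
    rw [← h1, Finset.sum_image hm]
    refine Finset.sum_congr rfl fun t ht => ?_
    rw [hc t ht, htt t ht]
  have hc0 : c ≠ 0 := by
    obtain ⟨t, ht⟩ := Finsupp.support_nonempty_iff.mpr hl
    intro h
    have := hc t ht
    rw [h] at this
    exact (Finsupp.mem_support_iff.mp ht) this.symm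
  have hr : 0 < ‖c‖ := norm_pos_iff.mpr hc0
  let r : K := (‖c‖ : K)
  have hr0 : r ≠ 0 := by
    simp only [r]
    exact RCLike.ofReal_ne_zero.mpr hr.ne'
  let y' : X := r⁻¹ • (l.sum fun t a => a • f t)
  have hy' : Dense (Set.range fun n : ℕ => (T^n) y') := by
    rw [(isBasis_countableBasis X).dense_iff]
    intro U hU _
    have h1 := hf m U hU (tt, r⁻¹ • c) ⟨hpre, by
      rw [mem_sphere_zero_iff_norm, norm_smul, norm_inv]
      simp only [r]
      rw [RCLike.norm_ofReal, abs_of_pos hr, inv_mul_cancel₀ hr.ne']⟩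
    obtain ⟨k, hk⟩ := h1
    refine ⟨(T^k) y', ?_, ⟨k, rfl⟩⟩
    have h2 : ∑ s, (r⁻¹ • c) s • f (tt s) = y' := by
      simp only [y', Pi.smul_apply, smul_eq_mul, mul_smul]
      rw [← Finset.smul_sum, hsum]
    rw [← h2]
    exact hk
  have hd : DenseRange (fun z : X => r • z) := by
    apply Function.Surjective.denseRange
    intro z
    exact ⟨r⁻¹ • z, by simp [smul_smul, mul_inv_cancel₀ hr0]⟩
  have h3 := hd.dense_image (continuous_const_smul r) hy'
  rw [← Set.range_comp] at h3
  have h4 : (fun n : ℕ => (T^n) (l.sum fun t a => a • f t)) =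
      (fun z : X => r • z) ∘ (fun n : ℕ => (T^n) y') := by
    funext n
    simp only [Function.comp, y']
    rw [← map_smul, smul_smul, mul_inv_cancel₀ hr0, one_smul]
  rw [h4]; exact h3

end

theorem card_le {X : Type} [TopologicalSpace X] [T2Space X] [SecondCountableTopology X] :
    Cardinal.mk X ≤ Cardinal.continuum := by
  classical
  let B := countableBasis X
  have : Countable B := (countable_countableBasis X).to_subtype
  let i : X → Set B := fun x => {b | x ∈ (b : Set X)}
  have hi : Function.Injective i := by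
    intro x y h
    by_contra hne
    obtain ⟨U, V, hU, hV, hxU, hyV, hUV⟩ := t2_separation hne
    obtain ⟨b, hb, hxb, hbU⟩ := (isBasis_countableBasis X).exists_subset_of_mem_open hxU hU
    have h1 : (⟨b, hb⟩ : B) ∈ i x := hxb
    rw [h] at h1
    exact Set.disjoint_left.mp hUV (hbU h1) hyV
  calc Cardinal.mk X ≤ Cardinal.mk (Set B) := Cardinal.mk_le_of_injective hi
    _ = 2 ^ Cardinal.mk B := Cardinal.mk_set
    _ ≤ 2 ^ Cardinal.aleph0 := Cardinal.power_le_power_left two_ne_zero (Cardinal.mk_le_aleph0)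
    _ = Cardinal.continuum := Cardinal.two_power_aleph0

theorem main :
    ∀ (𝕂 : Type) [RCLike 𝕂] (X : Type) [AddCommGroup X] [Module 𝕂 X] [UniformSpace X]
      [IsUniformAddGroup X] [CompleteSpace X] [ContinuousSMul 𝕂 X]
      [TopologicalSpace.MetrizableSpace X] (T : X →L[𝕂] X),
      (∃ x : X, Dense (Set.range fun n : ℕ => (⇑T)^[n] x)) →
      ∃ M : Submodule 𝕂 X, Dense (M : Set X) ∧
        (∀ x ∈ M, x ≠ 0 → Dense (Set.range fun n : ℕ => (⇑T)^[n] x)) ∧
        Module.rank 𝕂 M = Module.rank 𝕂 X := by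
  classical
  intro 𝕂 _ X _ _ _ _ _ _ _ T hex
  have hpow : ∀ (n : ℕ) (x : X), (⇑T)^[n] x = (T^n) x := by
    intro n x
    induction n generalizing x with
    | zero => simp
    | succ n ih =>
      rw [Function.iterate_succ_apply, ih, pow_succ]
      rfl
  simp only [hpow] at hex ⊢
  obtain ⟨x, hx⟩ := hex
  rcases subsingleton_or_nontrivial X with hsub | hnt
  · refine ⟨⊤, ?_, ?_, ?_⟩
    · simp
    · intro y _ hy
      exact absurd (Subsingleton.elim y 0) hy
    · exact rank_top 𝕂 X
  have hcg : (uniformity X).IsCountablyGenerated := IsUniformAddGroup.uniformity_countably_generated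
  have hsep : SeparableSpace X := ⟨⟨_, Set.countable_range _, hx⟩⟩
  have hsc : SecondCountableTopology X := UniformSpace.secondCountable_of_separable X
  have hcb : Countable (countableBasis X) := (countable_countableBasis X).to_subtype
  have hbaire : BaireSpace C(Ca, X) := inferInstance
  have hd : Dense ((⋂ q : ℕ × countableBasis X, O T q.1 (q.2 : Set X)) ∩
      ⋂ U : countableBasis X, E 𝕂 (U : Set X)) := by
    apply Dense.inter_of_Gδ
    · exact IsGδ.iInter_of_isOpen fun q =>
        isOpen_O T q.1 q.2 (isOpen_of_mem_countableBasis q.2.2)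
    · exact IsGδ.iInter_of_isOpen fun U =>
        isOpen_E (K := 𝕂) (U : Set X) (isOpen_of_mem_countableBasis U.2)
    · exact dense_iInter_of_isOpen (fun q =>
        isOpen_O T q.1 q.2 (isOpen_of_mem_countableBasis q.2.2)) fun q =>
        dense_O T x hx q.1 q.2 (isOpen_of_mem_countableBasis q.2.2)
          (nonempty_of_mem_countableBasis q.2.2)
    · exact dense_iInter_of_isOpen (fun U =>
        isOpen_E (K := 𝕂) (U : Set X) (isOpen_of_mem_countableBasis U.2)) fun U =>
        dense_E (K := 𝕂) (U : Set X) (isOpen_of_mem_countableBasis U.2)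
          (nonempty_of_mem_countableBasis U.2)
  obtain ⟨f, hf1, hf2⟩ := hd.nonempty
  have hfO : ∀ (m : ℕ), ∀ U ∈ countableBasis X, f ∈ O T m U := by
    intro m U hU
    exact mem_iInter.mp hf1 (m, ⟨U, hU⟩)
  have hfE : ∀ U ∈ countableBasis X, f ∈ E 𝕂 U := by
    intro U hU
    exact mem_iInter.mp hf2 ⟨U, hU⟩
  have hcombo := hc_combo T f hfO
  have hli : LinearIndependent 𝕂 (fun t : Ca => f t) := by
    rw [linearIndependent_iff]
    intro l hl
    by_contra hne
    have h1 := hcombo l hne
    have h2 : (l.sum fun t a => a • f t) = 0 := hl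
    rw [h2] at h1
    simp only [map_zero, Set.range_const] at h1
    have h3 : (univ : Set X) ⊆ {0} := by
      rw [← h1.closure_eq]
      exact closure_minimal (le_refl _) isClosed_singleton
    obtain ⟨y, hy⟩ := exists_ne (0 : X)
    exact hy (h3 (mem_univ y))
  let M : Submodule 𝕂 X := Submodule.span 𝕂 (Set.range f)
  refine ⟨M, ?_, ?_, ?_⟩
  · rw [(isBasis_countableBasis X).dense_iff]
    intro U hU _
    obtain ⟨a, t, t', h⟩ := hfE U hU
    refine ⟨a • (f t - f t'), h, ?_⟩
    exact M.smul_mem a (M.sub_mem (Submodule.subset_span ⟨t, rfl⟩) (Submodule.subset_span ⟨t', rfl⟩))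
  · intro y hy hy0
    obtain ⟨l, rfl⟩ := Finsupp.mem_span_range_iff_exists_finsupp.mp hy
    apply hcombo
    rintro rfl
    exact hy0 (by simp)
  · apply le_antisymm (Submodule.rank_le M)
    have h1 : Module.rank 𝕂 X ≤ Cardinal.continuum := (rank_le_card 𝕂 X).trans card_le
    have h2 : Cardinal.mk Ca = Cardinal.continuum := by
      simp [Ca]
    have h3 : LinearIndependent 𝕂 (fun t : Ca => (⟨f t, Submodule.subset_span ⟨t, rfl⟩⟩ : M)) := by
      apply LinearIndependent.of_comp M.subtype
      exact hli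
    have h4 := h3.cardinal_le_rank
    rw [h2] at h4
    exact h1.trans h4

end Pool.Agent.HC
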