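import Mathlib

set_option autoImplicit false
open Set Filter Topology Polynomial

namespace Pool.Agent.HC

/-- A continuous linear operator with a dense orbit on a nonzero Hausdorff topological vector space
is not algebraic. -/
theorem not_algebraic {K : Type} [RCLike K] {Q : Type} [AddCommGroup Q] [Module K Q]
    [TopologicalSpace Q] [IsTopologicalAddGroup Q] [ContinuousSMul K Q] [T2Space Q] [Nontrivial Q]
    (S : Q →ₗ[K] Q) (x : Q)
    (hx : Dense (Set.range fun n : ℕ => (S^n) x)) (p : K[X]) (hp : p ≠ 0) :
    aeval S p ≠ 0 := by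
  classical
  intro h0
  -- monic version
  have hint : IsIntegral K S := by
    have : IsAlgebraic K S := ⟨p, hp, h0⟩
    exact this.isIntegral
  -- the span of the orbit is finite dimensional
  let A := Algebra.adjoin K {S}
  have hAfin : Module.Finite K A := by
    have := hint.fg_adjoin_singleton
    exact Module.Finite.iff_fg.mpr this
  let ev : A →ₗ[K] Q := ((LinearMap.applyₗ x : (Q →ₗ[K] Q) →ₗ[K] Q)) ∘ₗ A.toSubmodule.subtype
  have hev : ∀ a : A, ev a = (a : Q →ₗ[K] Q) x := fun a => rfl
  have hSA : ∀ n : ℕ, S ^ n ∈ A := fun n => A.pow_mem (Algebra.self_mem_adjoin_singleton K S) n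
  have hrange : LinearMap.range ev = ⊤ := by
    have : FiniteDimensional K (LinearMap.range ev) := inferInstance
    have hcl : IsClosed ((LinearMap.range ev : Submodule K Q) : Set Q) :=
      Submodule.closed_of_finiteDimensional _
    have hsub : (Set.range fun n : ℕ => (S^n) x) ⊆ ((LinearMap.range ev : Submodule K Q) : Set Q) := by
      rintro _ ⟨n, rfl⟩
      exact ⟨⟨S ^ n, hSA n⟩, rfl⟩
    have hd : Dense ((LinearMap.range ev : Submodule K Q) : Set Q) := hx.mono hsub
    have : ((LinearMap.range ev : Submodule K Q) : Set Q) = univ := by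
      rw [← hcl.closure_eq]; exact hd.closure_eq
    exact SetLike.coe_injective (by simpa using this)
  have hQfin : FiniteDimensional K Q := by
    have : Function.Surjective ev := LinearMap.range_eq_top.mp hrange
    exact Module.Finite.of_surjective ev this
  have hinj : Function.Injective ev := by
    rw [← LinearMap.ker_eq_bot, LinearMap.ker_eq_bot']
    intro a ha
    have hsur : Function.Surjective ev := LinearMap.range_eq_top.mp hrange
    have hcom : ∀ b : A, (a : Q →ₗ[K] Q) * b = b * a := by
      intro b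
      have hb : ∀ c ∈ A, Commute S c := fun c hc => Algebra.commute_of_mem_adjoin_self hc
      have := Algebra.commute_of_mem_adjoin_singleton_of_commute (R := K) a.2 (hb _ b.2).symm
      exact this.symm.eq
    apply Subtype.ext
    apply LinearMap.ext
    intro y
    obtain ⟨b, rfl⟩ := hsur y
    rw [hev]
    have h1 : (a : Q →ₗ[K] Q) ((b : Q →ₗ[K] Q) x) = ((a : Q →ₗ[K] Q) * b) x := rfl
    rw [h1, hcom b]
    change (b : Q →ₗ[K] Q) ((a : Q →ₗ[K] Q) x) = 0
    rw [hev] at ha
    rw [ha, map_zero]
  let e : A ≃ₗ[K] Q := LinearEquiv.ofBijective ev ⟨hinj, LinearMap.range_eq_top.mp hrange⟩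
  let L : Q →ₗ[K] (Q →ₗ[K] Q) := A.toSubmodule.subtype ∘ₗ e.symm.toLinearMap
  have hL : ∀ a : A, L ((a : Q →ₗ[K] Q) x) = a := by
    intro a
    have : (a : Q →ₗ[K] Q) x = e a := rfl
    rw [this]
    simp [L]
  let D : Q → K := fun y => LinearMap.det (L y)
  have hDcont : Continuous D := by
    let b := Module.finBasis K Q
    have : D = fun y => Matrix.det (LinearMap.toMatrix b b (L y)) := by
      funext y
      simp [D, LinearMap.det_toMatrix]
    rw [this]
    apply Continuous.matrix_det
    refine continuous_pi fun i => continuous_pi fun j => ?_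
    let φ : Q →ₗ[K] K :=
      { toFun := fun y => LinearMap.toMatrix b b (L y) i j
        map_add' := by intro y z; simp
        map_smul' := by intro c y; simp }
    exact φ.continuous_of_finiteDimensional
  have hDorb : ∀ n : ℕ, D ((S^n) x) = (LinearMap.det S)^n := by
    intro n
    have := hL ⟨S^n, hSA n⟩
    simp only [D]
    rw [this]; simp
  have hDsc : ∀ c : K, D (c • x) = c ^ (Module.finrank K Q) := by
    intro c
    have h1 : (algebraMap K (Q →ₗ[K] Q) c) ∈ A := A.algebraMap_mem c
    have := hL ⟨algebraMap K (Q →ₗ[K] Q) c, h1⟩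
    have h2 : (algebraMap K (Q →ₗ[K] Q) c) x = c • x := by
      simp [Module.algebraMap_end_apply]
    simp only [D]
    rw [← h2, this]
    simp [Algebra.algebraMap_eq_smul_one]
  have hpos : 0 < Module.finrank K Q := Module.finrank_pos
  -- image of D is in closure of the powers
  set r : ℝ := ‖LinearMap.det S‖ with hr
  have hcl : ∀ (C : Set ℝ), IsClosed C → (∀ n : ℕ, r ^ n ∈ C) → ∀ y : Q, ‖D y‖ ∈ C := by
    intro C hC h y
    have hc : IsClosed {y : Q | ‖D y‖ ∈ C} := hC.preimage (hDcont.norm)
    have hs : (Set.range fun n : ℕ => (S^n) x) ⊆ {y : Q | ‖D y‖ ∈ C} := by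
      rintro _ ⟨n, rfl⟩
      simp only [mem_ofPred_eq, hDorb, norm_pow]
      exact h n
    have := hc.closure_subset_iff.mpr hs
    exact this (hx y)
  rcases le_or_gt r 1 with h1 | h1
  · have := hcl (Iic 1) isClosed_Iic (fun n => pow_le_one₀ (norm_nonneg _) h1) ((2 : K) • x)
    rw [hDsc, norm_pow, mem_Iic] at this
    have h2 : (1 : ℝ) < ‖(2 : K)‖ := by
      rw [RCLike.norm_ofNat]; norm_num
    exact absurd this (not_le.mpr (one_lt_pow₀ h2 hpos.ne'))
  · have := hcl (Ici 1) isClosed_Ici (fun n => one_le_pow₀ h1.le) ((0 : K) • x)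
    rw [hDsc, norm_pow, mem_Ici, norm_zero, zero_pow hpos.ne'] at this
    linarith

end Pool.Agent.HC
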